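import Mathlib

set_option autoImplicit false

namespace Pool.Agent.Helper93_DR

open Finset

variable {B : Type*} [Ring B]

/-- Elementwise form of right distributivity. -/
def RD (B : Type*) [Ring B] : Prop :=
  ∀ u v : B, ∃ x y c d : B, x + y = 1 ∧ u * x = v * c ∧ v * y = u * d

/-- A maximal right ideal, as a set. -/
structure MR (M : Set B) : Prop where
  zero : (0 : B) ∈ M
  add : ∀ x ∈ M, ∀ y ∈ M, x + y ∈ M
  mul : ∀ x ∈ M, ∀ r : B, x * r ∈ M
  one : (1 : B) ∉ M
  max : ∀ x, x ∉ M → ∃ w, x * w - 1 ∈ M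

theorem MR.neg {M : Set B} (h : MR M) {x : B} (hx : x ∈ M) : -x ∈ M := by
  have := h.mul x hx (-1)
  simpa using this

theorem MR.sub {M : Set B} (h : MR M) {x y : B} (hx : x ∈ M) (hy : y ∈ M) : x - y ∈ M := by
  rw [sub_eq_add_neg]
  exact h.add _ hx _ (h.neg hy)

theorem MR.of_sub {M : Set B} (h : MR M) {x y : B} (hxy : x - y ∈ M) (hy : y ∈ M) : x ∈ M := by
  have := h.add _ hxy _ hy
  simpa using this

theorem MR.of_sub' {M : Set B} (h : MR M) {x y : B} (hxy : x - y ∈ M) (hx : x ∈ M) : y ∈ M := by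
  have := h.sub hx hxy
  simpa using this

/-- maximal right ideals are two-sided -/
theorem MR.left {M : Set B} (hM : MR M) (h : RD B) (r : B) {m : B} (hm : m ∈ M) : r * m ∈ M := by
  by_contra hrm
  obtain ⟨w, hw⟩ := hM.max _ hrm
  obtain ⟨y1, y2, c, d, h1, h2, h3⟩ := h (m * w) (1 - m * w * r)
  have hp : m * w ∈ M := hM.mul _ hm _
  have hrq : r * (1 - m * w * r) ∈ M := by
    have : r * (1 - m * w * r) = (r * m * w - 1) * (-r) := by noncomm_ring
    rw [this]
    exact hM.mul _ hw _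
  have hy2 : y2 ∈ M := by
    have e1 : (m * w + (1 - m * w * r)) * y2 = m * w * (y2 + d) := by
      rw [add_mul, h3, mul_add]
    have e2 : (m * w + (1 - m * w * r)) * y2 - y2 = (m * w) * ((1 - r) * y2) := by noncomm_ring
    have e3 : (m * w + (1 - m * w * r)) * y2 ∈ M := by rw [e1]; exact hM.mul _ hp _
    have e4 : (m * w + (1 - m * w * r)) * y2 - y2 ∈ M := by rw [e2]; exact hM.mul _ hp _
    exact hM.of_sub' e4 e3
  have hy1 : y1 ∈ M := by
    have e1 : r * (m * w + (1 - m * w * r)) * y1 = r * (1 - m * w * r) * (c + y1) := by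
      have : r * (m * w + (1 - m * w * r)) * y1 = r * (m * w * y1) + r * (1 - m * w * r) * y1 := by
        noncomm_ring
      rw [this, h2]
      noncomm_ring
    have e3 : r * (m * w + (1 - m * w * r)) * y1 ∈ M := by rw [e1]; exact hM.mul _ hrq _
    have e2 : r * (m * w + (1 - m * w * r)) * y1 - y1
        = (r * m * w - 1) * y1 + r * (1 - m * w * r) * y1 := by noncomm_ring
    have e4 : r * (m * w + (1 - m * w * r)) * y1 - y1 ∈ M := by
      rw [e2]; exact hM.add _ (hM.mul _ hw _) _ (hM.mul _ hrq _)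
    exact hM.of_sub' e4 e3
  apply hM.one
  rw [← h1]
  exact hM.add _ hy1 _ hy2

theorem MR.prime {M : Set B} (hM : MR M) (h : RD B) {x y : B} (hx : x ∉ M) (hy : y ∉ M) :
    x * y ∉ M := by
  intro hxy
  obtain ⟨w, hw⟩ := hM.max _ hy
  apply hx
  have e : x * y * w - x = x * (y * w - 1) := by noncomm_ring
  have h1 : x * y * w - x ∈ M := by rw [e]; exact hM.left h _ hw
  exact hM.of_sub' h1 (hM.mul _ hxy _)

theorem MR.linv {M : Set B} (hM : MR M) (h : RD B) {x : B} (hx : x ∉ M) :
    ∃ w, w * x - 1 ∈ M := by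
  obtain ⟨w, hw⟩ := hM.max _ hx
  have hwM : w ∉ M := by
    intro hwm
    apply hM.one
    exact hM.of_sub' hw (hM.left h _ hwm)
  obtain ⟨v, hv⟩ := hM.max _ hwM
  refine ⟨w, ?_⟩
  have e : w * x - 1 = w * (x * (w * v - 1)) * (-1) + w * ((x * w - 1) * v) + (w * v - 1) := by
    noncomm_ring
  rw [e]
  refine hM.add _ (hM.add _ (hM.mul _ (hM.left h _ (hM.left h _ hv)) _) _
    (hM.left h _ (hM.mul _ hw _))) _ hv

/-- right Ore condition for the complement of a maximal right ideal -/
theorem MR.ore {M : Set B} (hM : MR M) (h : RD B) (c : B) {x : B} (hx : x ∉ M) :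
    ∃ x' w, x' ∉ M ∧ c * x' = x * w := by
  obtain ⟨p, q, c1, d1, h1, h2, h3⟩ := h c x
  by_cases hp : p ∈ M
  · have hq : q ∉ M := by
      intro hq
      apply hM.one
      rw [← h1]
      exact hM.add _ hp _ hq
    refine ⟨d1, q, ?_, h3.symm⟩
    intro hd
    have : x * q ∉ M := hM.prime h hx hq
    rw [h3] at this
    exact this (hM.left h _ hd)
  · exact ⟨p, c1, hp, h2⟩

/-- Zorn: a proper right ideal is contained in a maximal one. -/
theorem exists_MR (H : Set B) (h0 : (0 : B) ∈ H) (ha : ∀ x ∈ H, ∀ y ∈ H, x + y ∈ H)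
    (hm : ∀ x ∈ H, ∀ r : B, x * r ∈ H) (h1 : (1 : B) ∉ H) : ∃ M : Set B, MR M ∧ H ⊆ M := by
  let I : Ideal Bᵐᵒᵖ :=
    { carrier := {a | a.unop ∈ H}
      add_mem' := by
        intro a b hab hb
        exact ha _ hab _ hb
      zero_mem' := h0
      smul_mem' := by
        intro c x hx
        exact hm _ hx _ }
  have hI : I ≠ ⊤ := by
    intro hI
    have : (1 : Bᵐᵒᵖ) ∈ I := by rw [hI]; trivial
    exact h1 this
  obtain ⟨J, hJ, hIJ⟩ := Ideal.exists_le_maximal I hI
  refine ⟨{b | MulOpposite.op b ∈ J}, ?_, ?_⟩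
  · constructor
    · exact J.zero_mem
    · intro x hx y hy
      exact J.add_mem hx hy
    · intro x hx r
      exact J.mul_mem_left (MulOpposite.op r) hx
    · intro h
      exact hJ.ne_top ((Ideal.eq_top_iff_one J).2 h)
    · intro x hx
      have hx' : MulOpposite.op x ∉ J := hx
      obtain ⟨y, i, hi, hy⟩ := hJ.exists_inv hx'
      refine ⟨y.unop, ?_⟩
      have : MulOpposite.op (x * y.unop - 1) = -i := by
        have : MulOpposite.op (x * y.unop - 1) = y * MulOpposite.op x - 1 := by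
          simp
        rw [this, ← hy]
        abel
      show MulOpposite.op (x * y.unop - 1) ∈ J
      rw [this]
      exact J.neg_mem hi
  · intro b hb
    exact hIJ hb

end Pool.Agent.Helper93_DR
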