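import Pool.Agent.Helper93_DR.Ore

set_option autoImplicit false

namespace Pool.Agent.Helper93_DR

open Finset

variable {B : Type*} [Ring B]

/-- `p` lies in `q B_M` -/
def LE (M : Set B) (p q : B) : Prop := ∃ v r, v ∉ M ∧ p * v = q * r

/-- `p` lies in `q M B_M` -/
def SL (M : Set B) (p q : B) : Prop := ∃ v r, v ∉ M ∧ r ∈ M ∧ p * v = q * r

theorem LE.of_mul {M : Set B} (hM : MR M) (q r : B) : LE M (q * r) q :=
  ⟨1, r, hM.one, by rw [mul_one]⟩

theorem LE.left {M : Set B} {p q : B} (h : LE M p q) (z : B) : LE M (z * p) (z * q) := by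
  obtain ⟨v, r, hv, h1⟩ := h
  exact ⟨v, r, hv, by rw [mul_assoc, h1, mul_assoc]⟩

theorem SL.left {M : Set B} {p q : B} (h : SL M p q) (z : B) : SL M (z * p) (z * q) := by
  obtain ⟨v, r, hv, hr, h1⟩ := h
  exact ⟨v, r, hv, hr, by rw [mul_assoc, h1, mul_assoc]⟩

theorem LE.trans {M : Set B} (hM : MR M) (h : RD B) {p q r : B} (h1 : LE M p q) (h2 : LE M q r) :
    LE M p r := by
  obtain ⟨v, b, hv, e1⟩ := h1
  obtain ⟨v', c, hv', e2⟩ := h2
  obtain ⟨x, w, hx, e3⟩ := hM.ore h b hv'
  refine ⟨v * x, c * w, hM.prime h hv hx, ?_⟩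
  rw [← mul_assoc, e1, mul_assoc, e3, ← mul_assoc, e2, mul_assoc]

theorem SL.trans_left {M : Set B} (hM : MR M) (h : RD B) {p q r : B} (h1 : LE M p q)
    (h2 : SL M q r) : SL M p r := by
  obtain ⟨v, b, hv, e1⟩ := h1
  obtain ⟨v', c, hv', hc, e2⟩ := h2
  obtain ⟨x, w, hx, e3⟩ := hM.ore h b hv'
  refine ⟨v * x, c * w, hM.prime h hv hx, hM.mul _ hc _, ?_⟩
  rw [← mul_assoc, e1, mul_assoc, e3, ← mul_assoc, e2, mul_assoc]

theorem SL.trans_right {M : Set B} (hM : MR M) (h : RD B) {p q r : B} (h1 : SL M p q)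
    (h2 : LE M q r) : SL M p r := by
  obtain ⟨v, b, hv, hb, e1⟩ := h1
  obtain ⟨v', c, hv', e2⟩ := h2
  obtain ⟨x, w, hx, e3⟩ := hM.ore h b hv'
  have hw : w ∈ M := by
    by_contra hw
    exact hM.prime h hv' hw (by rw [← e3]; exact hM.mul _ hb _)
  refine ⟨v * x, c * w, hM.prime h hv hx, hM.left h _ hw, ?_⟩
  rw [← mul_assoc, e1, mul_assoc, e3, ← mul_assoc, e2, mul_assoc]

theorem SL.add {M : Set B} (hM : MR M) (h : RD B) {p p' q : B} (h1 : SL M p q) (h2 : SL M p' q) :
    SL M (p + p') q := by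
  obtain ⟨v, m, hv, hm, e1⟩ := h1
  obtain ⟨v', m', hv', hm', e2⟩ := h2
  obtain ⟨x, w, hx, e3⟩ := hM.ore h v hv'
  refine ⟨v * x, m * x + m' * w, hM.prime h hv hx, hM.add _ (hM.mul _ hm _) _ (hM.mul _ hm' _), ?_⟩
  rw [add_mul, ← mul_assoc, e1, e3, ← mul_assoc, e2]
  noncomm_ring

theorem SL.zero {M : Set B} (hM : MR M) (q : B) : SL M 0 q :=
  ⟨1, 0, hM.one, hM.zero, by simp⟩

theorem SL.smul {K : Type*} [CommRing K] [Algebra K B] {M : Set B} (hM : MR M) {p q : B} (c : K)
    (h1 : SL M p q) : SL M (c • p) q := by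
  obtain ⟨v, m, hv, hm, e1⟩ := h1
  refine ⟨v, m * algebraMap K B c, hv, hM.mul _ hm _, ?_⟩
  rw [smul_mul_assoc, e1, ← mul_assoc, ← Algebra.commutes, Algebra.smul_def]

theorem SL.sum {M : Set B} (hM : MR M) (h : RD B) {ι : Type*} (s : Finset ι) (f : ι → B) (q : B)
    (hf : ∀ i ∈ s, SL M (f i) q) : SL M (∑ i ∈ s, f i) q := by
  classical
  induction s using Finset.induction_on with
  | empty => simpa using SL.zero hM q
  | insert a s ha ih =>
    rw [Finset.sum_insert ha]
    exact SL.add hM h (hf a (Finset.mem_insert_self a s))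
      (ih (fun i hi => hf i (Finset.mem_insert_of_mem hi)))

/-- value of a word at `(s a a, s a s a)` -/
def wval (a s : B) : List (Fin 2) → B
  | [] => 1
  | x :: l => (if x = 0 then s * a * a else s * a * (s * a)) * wval a s l

section

variable {M : Set B} {a s y d : B}

theorem val_aux (hM : MR M) (h : RD B) (hy : y ∉ M) (hsy : s * y = a * s ^ 2 * d) (z : B)
    (hz : LE M (s ^ 2) z) : LE M s (a * z) := by
  have h1 : LE M s (a * s ^ 2) := ⟨y, d, hy, hsy⟩
  exact h1.trans hM h (hz.left a)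

theorem val_aux2 (hM : MR M) (h : RD B) (z : B) (hz : LE M s z) : LE M (s ^ 2) (s * z) := by
  rw [pow_two]
  exact hz.left s

theorem val_aux3 (hM : MR M) (h : RD B) (z : B) (hz : LE M s z) : LE M (s ^ 2) z := by
  rw [pow_two]
  exact (LE.of_mul hM s s).trans hM h hz

theorem le_val (hM : MR M) (h : RD B) (hy : y ∉ M) (hsy : s * y = a * s ^ 2 * d)
    (l : List (Fin 2)) : LE M (s ^ 2) (wval a s l) := by
  induction l with
  | nil =>
    refine ⟨1, s ^ 2, hM.one, ?_⟩
    simp [wval]
  | cons x l ih =>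
    have h1 : LE M s (a * wval a s l) := val_aux hM h hy hsy _ ih
    rw [wval]
    split_ifs with hx
    · have e : s * a * a * wval a s l = s * (a * (a * wval a s l)) := by noncomm_ring
      rw [e]
      exact val_aux2 hM h _ (val_aux hM h hy hsy _ (val_aux3 hM h _ h1))
    · have e : s * a * (s * a) * wval a s l = s * (a * (s * (a * wval a s l))) := by noncomm_ring
      rw [e]
      exact val_aux2 hM h _ (val_aux hM h hy hsy _ (val_aux2 hM h _ h1))

theorem sl_val (hM : MR M) (h : RD B) (hy : y ∉ M) (hd : d ∈ M) (hsy : s * y = a * s ^ 2 * d)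
    (l l' : List (Fin 2)) (hl : l < l') : SL M (wval a s l') (wval a s l) := by
  induction l generalizing l' with
  | nil =>
    cases l' with
    | nil => exact absurd hl (lt_irrefl _)
    | cons x l' =>
      have h1 : SL M s 1 := ⟨y, a * s ^ 2 * d, hy, hM.left h _ hd, by rw [hsy, one_mul]⟩
      have h2 : LE M (wval a s (x :: l')) s := by
        rw [wval]
        split_ifs
        · have e : s * a * a * wval a s l' = s * (a * (a * wval a s l')) := by noncomm_ring
          rw [e]
          exact LE.of_mul hM _ _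
        · have e : s * a * (s * a) * wval a s l' = s * (a * (s * (a * wval a s l'))) := by
            noncomm_ring
          rw [e]
          exact LE.of_mul hM _ _
      exact SL.trans_left hM h h2 h1
  | cons x l ih =>
    cases l' with
    | nil => exact absurd hl (List.not_lt_nil _)
    | cons x' l' =>
      rcases List.cons_lt_cons_iff.1 hl with hlt | ⟨rfl, hlt⟩
      · have hx : x = 0 := by
          have g1 : (x : ℕ) < (x' : ℕ) := hlt
          have g2 := x'.2
          apply Fin.ext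
          simp only [Fin.val_zero]
          omega
        have hx' : x' ≠ 0 := by
          rintro rfl
          exact absurd hlt (Fin.not_lt_zero _)
        rw [wval, wval, if_pos hx, if_neg hx']
        have e1 : s * a * (s * a) * wval a s l' = s * a * (s * (a * wval a s l')) := by noncomm_ring
        have e2 : s * a * a * wval a s l = s * a * (a * wval a s l) := by noncomm_ring
        rw [e1, e2]
        apply SL.left
        have h1 : SL M s (a * s ^ 2) := ⟨y, d, hy, hd, hsy⟩
        have h2 : LE M (a * s ^ 2) (a * wval a s l) := (le_val hM h hy hsy l).left a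
        exact SL.trans_left hM h (LE.of_mul hM _ _) (SL.trans_right hM h h1 h2)
      · rw [wval, wval]
        exact (ih l' hlt).left _

end

/-- Dichotomy: if `a s ^ 2` is not in `s B` then the words in `s a a`, `s a s a` are independent
over central units. -/
theorem free_core {K : Type*} [CommRing K] [Algebra K B] (h : RD B) (a s : B)
    (hno : ¬ ∃ b, a * s ^ 2 = s * b) (F : Finset (List (Fin 2))) (hF : F.Nonempty)
    (c : List (Fin 2) → K) (hc : ∀ w ∈ F, IsUnit (c w))
    (hsum : ∑ w ∈ F, c w • wval a s w = 0) : False := by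
  classical
  obtain ⟨M, hM, hsub⟩ := exists_MR {x : B | ∃ b, a * s ^ 2 * x = s * b}
    ⟨0, by simp⟩
    (by
      rintro x ⟨b, hb⟩ z ⟨b', hb'⟩
      exact ⟨b + b', by rw [mul_add, hb, hb', mul_add]⟩)
    (by
      rintro x ⟨b, hb⟩ r
      exact ⟨b * r, by rw [← mul_assoc, hb, mul_assoc]⟩)
    (by
      rintro ⟨b, hb⟩
      exact hno ⟨b, by rw [← hb, mul_one]⟩)
  obtain ⟨x, y, c', d, h1, h2, h3⟩ := h (a * s ^ 2) s
  have hx : x ∈ M := hsub ⟨c', h2⟩
  have hd : d ∈ M := hsub ⟨y, h3.symm⟩
  have hy : y ∉ M := by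
    intro hy
    apply hM.one
    rw [← h1]
    exact hM.add _ hx _ hy
  obtain ⟨u, hu, hmin⟩ := Finset.exists_min_image F id hF
  have hrest : SL M (∑ w ∈ F.erase u, c w • wval a s w) (wval a s u) := by
    apply SL.sum hM h
    intro w hw
    apply SL.smul hM
    apply sl_val hM h hy hd h3
    exact lt_of_le_of_ne (hmin w (Finset.mem_of_mem_erase hw)) (Finset.ne_of_mem_erase hw).symm
  have e1 : ∑ w ∈ F.erase u, c w • wval a s w = - (c u • wval a s u) := by
    rw [← Finset.add_sum_erase F _ hu] at hsum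
    exact eq_neg_of_add_eq_zero_right hsum
  rw [e1] at hrest
  obtain ⟨v, m, hv, hm, e2⟩ := hrest
  obtain ⟨cu, hcu⟩ := hc u hu
  -- u * (c v + m) = 0
  have e3 : wval a s u * (algebraMap K B (c u) * v + m) = 0 := by
    rw [mul_add, ← mul_assoc, ← Algebra.commutes, ← Algebra.smul_def, ← e2]
    noncomm_ring
  have hvm : algebraMap K B (c u) * v + m ∉ M := by
    intro hmem
    have h4 : algebraMap K B (c u) * v ∈ M := by
      have := hM.sub hmem hm
      simpa using this
    apply hv
    have h5 := hM.left h (algebraMap K B ((cu⁻¹ : Kˣ) : K)) h4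
    rw [← mul_assoc, ← map_mul, ← hcu, Units.inv_mul, map_one, one_mul] at h5
    exact h5
  obtain ⟨v', r, hv', e4⟩ := le_val hM h hy h3 u
  obtain ⟨x', w', hx', e5⟩ := hM.ore h r hvm
  have e6 : s ^ 2 * (v' * x') = 0 := by
    rw [← mul_assoc, e4, mul_assoc, e5, ← mul_assoc, e3, zero_mul]
  have h7 : v' * x' ∉ M := hM.prime h hv' hx'
  apply h7
  apply hsub
  exact ⟨0, by rw [mul_assoc, e6]; simp⟩

end Pool.Agent.Helper93_DR
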