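import Pool.Agent.Helper93_DR.Free

/-!
# MP_64bfc7_al: a two-sided distributive algebra without free subalgebras has a classical ring of
quotients

If `a s^2` is not in `s A` then there is a maximal right ideal `M` with `s y = a s^2 d`, `y` not in
`M` and `d` in `M`.  In the local ring at `M` the words in `s a a` and `s a s a` then have pairwise
different values (a word is smaller than another one if it is lexicographically larger), hence they
are linearly independent over every central subfield.
-/

set_option autoImplicit false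

namespace Pool.Agent.Results.MP_64bfc7_al.FreeSubalgebras

open Finset MulOpposite
open Pool.Agent.Helper93_DR

theorem lift_val {A : Type*} [Ring A] (a s : A) (w : FreeMonoid (Fin 2)) :
    FreeMonoid.lift ![s * a * a, s * a * (s * a)] w = wval a s (FreeMonoid.toList w) := by
  induction w using FreeMonoid.inductionOn' with
  | one => rfl
  | of_mul x w ih =>
    rw [map_mul, ih, FreeMonoid.lift_eval_of]
    have : FreeMonoid.toList (FreeMonoid.of x * w) = x :: FreeMonoid.toList w := rfl
    rw [this, wval]
    have hx : x = 0 ∨ x = 1 := by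
      have := x.2
      rcases x with ⟨i, hi⟩
      interval_cases i
      · left; rfl
      · right; rfl
    rcases hx with rfl | rfl
    · simp
    · simp

theorem right_part {K : Type*} [CommRing K] {A : Type*} [Ring A] [Algebra K A] (hr : RD A)
    (hfree : ∀ x y : A, ∃ f : MonoidAlgebra K (FreeMonoid (Fin 2)), f ≠ 0 ∧
      (∀ w, f.coeff w ≠ 0 → IsUnit (f.coeff w)) ∧
      MonoidAlgebra.lift K A (FreeMonoid (Fin 2)) (FreeMonoid.lift ![x, y]) f = 0) (a s : A) :
    ∃ b, a * s ^ 2 = s * b := by
  by_contra hno
  obtain ⟨f, hf0, hfu, hf⟩ := hfree (s * a * a) (s * a * (s * a))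
  rw [MonoidAlgebra.lift_apply, Finsupp.sum] at hf
  have hne : f.coeff.support.Nonempty := by
    rw [Finsupp.support_nonempty_iff]
    intro h0
    apply hf0
    exact MonoidAlgebra.coeff_eq_zero.1 h0
  refine free_core (K := K) hr a s hno
    (f.coeff.support.map FreeMonoid.toList.toEmbedding) (by simpa using hne)
    (fun w => f.coeff (FreeMonoid.ofList w)) ?_ ?_
  · intro w hw
    obtain ⟨w', hw', rfl⟩ := Finset.mem_map.1 hw
    apply hfu
    simpa using hw'
  · rw [Finset.sum_map]
    rw [← hf]
    apply Finset.sum_congr rfl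
    intro w _
    rw [lift_val]
    simp

/-- Let `A` be a left and right distributive ring and an algebra over a commutative ring `K`.
Suppose that any two elements `x`, `y` of `A` satisfy a relation `f(x,y) = 0`, where `f` is a
non-zero non-commutative polynomial over `K` whose non-zero coefficients are units (if `K` is a
field: `A` contains no free `K`-algebra of rank two).  Then `a s^2` is in `s A` and `s^2 a` is in
`A s` for all `a`, `s` in `A`, and the regular elements of `A` satisfy the right and the left Ore
condition. -/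
theorem result {K : Type*} [CommRing K] {A : Type*} [Ring A] [Algebra K A]
    (hL : ∀ a b c : Submodule A A, a ⊓ (b ⊔ c) = a ⊓ b ⊔ a ⊓ c)
    (hR : ∀ a b c : Submodule Aᵐᵒᵖ A, a ⊓ (b ⊔ c) = a ⊓ b ⊔ a ⊓ c)
    (hfree : ∀ x y : A, ∃ f : MonoidAlgebra K (FreeMonoid (Fin 2)), f ≠ 0 ∧
      (∀ w, f.coeff w ≠ 0 → IsUnit (f.coeff w)) ∧
      MonoidAlgebra.lift K A (FreeMonoid (Fin 2)) (FreeMonoid.lift ![x, y]) f = 0) :
    ((∀ a s : A, ∃ b, a * s ^ 2 = s * b) ∧ (∀ a s : A, ∃ b, s ^ 2 * a = b * s)) ∧
    (∀ a s : A, ((∀ x : A, x * s = 0 → x = 0) ∧ (∀ x : A, s * x = 0 → x = 0)) →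
      ∃ b t : A, ((∀ x : A, x * t = 0 → x = 0) ∧ (∀ x : A, t * x = 0 → x = 0)) ∧
        a * t = s * b) ∧
    (∀ a s : A, ((∀ x : A, x * s = 0 → x = 0) ∧ (∀ x : A, s * x = 0 → x = 0)) →
      ∃ b t : A, ((∀ x : A, x * t = 0 → x = 0) ∧ (∀ x : A, t * x = 0 → x = 0)) ∧
        t * a = b * s) := by
  have hr := rd_of_right A hR
  have hl := rd_of_left A hL
  have h1 : ∀ a s : A, ∃ b, a * s ^ 2 = s * b := right_part hr hfree
  have h2 : ∀ a s : A, ∃ b, s ^ 2 * a = b * s := by
    intro a s
    by_contra hno
    obtain ⟨f, hf0, hfu, hf⟩ := hfree (a * a * s) (a * s * (a * s))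
    have key : ∀ l : List (Fin 2), wval (op a) (op s) l
        = op (FreeMonoid.lift ![a * a * s, a * s * (a * s)] (FreeMonoid.ofList l.reverse)) := by
      intro l
      induction l with
      | nil => rfl
      | cons x l ih =>
        rw [wval, ih, List.reverse_cons]
        have e : FreeMonoid.ofList (l.reverse ++ [x])
            = FreeMonoid.ofList l.reverse * FreeMonoid.of x := rfl
        rw [e, map_mul, FreeMonoid.lift_eval_of, op_mul]
        congr 1
        have hx : x = 0 ∨ x = 1 := by
          have := x.2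
          rcases x with ⟨i, hi⟩
          interval_cases i
          · left; rfl
          · right; rfl
        rcases hx with rfl | rfl
        · simp [mul_assoc]
        · simp [mul_assoc]
    rw [MonoidAlgebra.lift_apply, Finsupp.sum] at hf
    have hne : f.coeff.support.Nonempty := by
      rw [Finsupp.support_nonempty_iff]
      intro h0
      apply hf0
      exact MonoidAlgebra.coeff_eq_zero.1 h0
    have hno' : ¬ ∃ b, op a * op s ^ 2 = op s * b := by
      rintro ⟨b, hb⟩
      apply hno
      refine ⟨b.unop, ?_⟩
      have := congrArg unop hb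
      simpa using this
    obtain ⟨E, hE⟩ : ∃ E : FreeMonoid (Fin 2) ↪ List (Fin 2),
        ∀ w, FreeMonoid.ofList (E w).reverse = w := by
      refine ⟨⟨fun w => (FreeMonoid.toList w).reverse, ?_⟩, ?_⟩
      · intro w w' hw
        exact FreeMonoid.toList.injective (List.reverse_injective hw)
      · intro w
        show FreeMonoid.ofList ((FreeMonoid.toList w).reverse).reverse = w
        rw [List.reverse_reverse]
        rfl
    refine free_core (K := K) hl (op a) (op s) hno'
      (f.coeff.support.map E) (by simpa using hne)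
      (fun w => f.coeff (FreeMonoid.ofList w.reverse)) ?_ ?_
    · intro w hw
      obtain ⟨w', hw', rfl⟩ := Finset.mem_map.1 hw
      apply hfu
      rw [hE]
      exact Finsupp.mem_support_iff.1 hw'
    · rw [Finset.sum_map]
      have h3 : op (∑ w ∈ f.coeff.support, f.coeff w •
          FreeMonoid.lift ![a * a * s, a * s * (a * s)] w) = 0 := by rw [hf, op_zero]
      rw [← h3, Finset.op_sum]
      apply Finset.sum_congr rfl
      intro w _
      rw [key, hE, op_smul]
  have hreg : ∀ s : A, ((∀ x : A, x * s = 0 → x = 0) ∧ (∀ x : A, s * x = 0 → x = 0)) →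
      ((∀ x : A, x * s ^ 2 = 0 → x = 0) ∧ (∀ x : A, s ^ 2 * x = 0 → x = 0)) := by
    rintro s ⟨g1, g2⟩
    constructor
    · intro x hx
      apply g1
      apply g1
      rw [mul_assoc, ← pow_two, hx]
    · intro x hx
      apply g2
      apply g2
      rw [← mul_assoc, ← pow_two, hx]
  refine ⟨⟨h1, h2⟩, ?_, ?_⟩
  · intro a s hs
    obtain ⟨b, hb⟩ := h1 a s
    exact ⟨b, s ^ 2, hreg s hs, hb⟩
  · intro a s hs
    obtain ⟨b, hb⟩ := h2 a s
    exact ⟨b, s ^ 2, hreg s hs, hb⟩

end Pool.Agent.Results.MP_64bfc7_al.FreeSubalgebras
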