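import Pool.Agent.Helper93_DR.Ore

/-!
# MP_64bfc7_al: two-sided distributive rings whose residue division rings omit the roots of a
monic polynomial have a classical ring of quotients

For `s` regular and `a` arbitrary one looks for `t_0, ..., t_n` with `a t_i = s t_(i+1)` and
`p_0 t_0 + p_1 t_1 + ... + t_n = 1` (so `t_0 = p(s^(-1)a)^(-1)`).  The possible left hand sides form
a right ideal; it lies in no maximal right ideal `M`, because locally `s^(-1) a` or its inverse is
integral and its residue in `A/M` is not a root of `p`.  Finitely many exceptional maximal ideals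
are repaired by replacing `a` by `a - s e` (Chinese remainder theorem).
-/

set_option autoImplicit false

namespace Pool.Agent.Results.MP_64bfc7_al.OmittedRoots

open Polynomial Finset MulOpposite
open Pool.Agent.Helper93_DR

theorem pv_eq {K : Type*} [CommRing K] {A : Type*} [Ring A] [Algebra K A] (p : K[X]) (x : A) :
    pv p.natDegree (fun j => algebraMap K A (p.coeff (p.natDegree - j))) x = aeval x p := by
  rw [pv, aeval_eq_sum_range]
  apply Finset.sum_congr rfl
  intro i hi
  have h1 := Finset.mem_range.1 hi
  have h2 : p.natDegree - (p.natDegree - i) = i := by omega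
  simp only [h2]
  rw [Algebra.smul_def]

theorem pv_op_eq {K : Type*} [CommRing K] {A : Type*} [Ring A] [Algebra K A] (p : K[X]) (x : A) :
    pv p.natDegree (fun j => (op (algebraMap K A (p.coeff (p.natDegree - j))) : Aᵐᵒᵖ)) (op x)
      = op (aeval x p) := by
  rw [← pv_eq, pv, pv, Finset.op_sum]
  apply Finset.sum_congr rfl
  intro i _
  rw [← op_pow, ← op_mul]
  congr 1
  exact (Algebra.commutes (p.coeff (p.natDegree - (p.natDegree - i))) (x ^ i)).symm

/-- Let `A` be a left and right distributive ring, an algebra over a commutative ring `K`, and `p` a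
monic non-constant polynomial over `K` whose constant coefficient is a unit.  Suppose that for all
but finitely many maximal ideals `M` of `A` no value `p(x)`, `x` in `A`, lies in `M` (that is, `p`
has no root in the division ring `A/M`), and that `A` is reduced or all values `p(x)` are units.
Then the regular elements of `A` satisfy the right and the left Ore condition. -/
theorem result {K : Type*} [CommRing K] {A : Type*} [Ring A] [Algebra K A]
    (hL : ∀ a b c : Submodule A A, a ⊓ (b ⊔ c) = a ⊓ b ⊔ a ⊓ c)
    (hR : ∀ a b c : Submodule Aᵐᵒᵖ A, a ⊓ (b ⊔ c) = a ⊓ b ⊔ a ⊓ c)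
    (p : K[X]) (hp : p.Monic) (hdeg : p.natDegree ≠ 0) (hp0 : IsUnit (p.coeff 0))
    (hfin : {M : Ideal A | M.IsMaximal ∧ ∃ x : A, aeval x p ∈ M}.Finite)
    (hA : IsReduced A ∨ ∀ x : A, IsUnit (aeval x p)) :
    (∀ a s : A, ((∀ x : A, x * s = 0 → x = 0) ∧ (∀ x : A, s * x = 0 → x = 0)) →
      ∃ b t : A, ((∀ x : A, x * t = 0 → x = 0) ∧ (∀ x : A, t * x = 0 → x = 0)) ∧
        a * t = s * b) ∧
    (∀ a s : A, ((∀ x : A, x * s = 0 → x = 0) ∧ (∀ x : A, s * x = 0 → x = 0)) →
      ∃ b t : A, ((∀ x : A, x * t = 0 → x = 0) ∧ (∀ x : A, t * x = 0 → x = 0)) ∧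
        t * a = b * s) := by
  have hr := rd_of_right A hR
  have hl := rd_of_left A hL
  set n := p.natDegree with hn
  set c : ℕ → A := fun j => algebraMap K A (p.coeff (n - j)) with hc
  have hc0 : c 0 = 1 := by
    simp only [hc, Nat.sub_zero]
    rw [hn, hp.coeff_natDegree, map_one]
  have hcn : IsUnit (c n) := by
    simp only [hc, Nat.sub_self]
    exact hp0.map _
  have hn1 : 1 ≤ n := Nat.one_le_iff_ne_zero.2 hdeg
  have hcen : ∀ i, ∀ x, c i * x = x * c i := fun i x => Algebra.commutes _ _
  have hpv : ∀ x : A, pv n c x = aeval x p := fun x => pv_eq p x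
  have hpvo : ∀ x : A, pv n (fun j => op (c j)) (op x) = op (aeval x p) := fun x => pv_op_eq p x
  have hop0 : (fun j => op (c j)) 0 = (1 : Aᵐᵒᵖ) := by
    simp only [hc0, op_one]
  have hopn : IsUnit ((fun j => op (c j)) n : Aᵐᵒᵖ) := hcn.op
  have hcenop : ∀ i, ∀ x : Aᵐᵒᵖ, op (c i) * x = x * op (c i) := by
    intro i x
    obtain ⟨y, rfl⟩ := op_surjective x
    rw [← op_mul, ← op_mul, hcen]
  rcases hA with hred | hu
  · have hred' : ∀ x : A, x * x = 0 → x = 0 := by
      intro x hx
      apply hred.eq_zero
      exact ⟨2, by rw [pow_two, hx]⟩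
    have hred'' : ∀ x : Aᵐᵒᵖ, x * x = 0 → x = 0 := by
      intro x hx
      have := hred' x.unop (by
        have := congrArg unop hx
        simpa using this)
      exact unop_injective this
    constructor
    · refine ore_finite hr hred' n hn1 c hc0 hcn ?_
      refine Set.Finite.subset (Set.Finite.image (fun I : Ideal A => (I : Set A)) hfin) ?_
      rintro M ⟨hM, x, hx⟩
      obtain ⟨I, hI, hIM⟩ := hM.ideal hr
      refine ⟨I, ⟨hI, x, ?_⟩, hIM⟩
      rw [hpv, ← hIM] at hx
      exact hx
    · intro a s hs
      refine oreL_of_op ?_ a s hs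
      refine ore_finite hl hred'' n hn1 (fun j => op (c j)) hop0 hopn ?_
      refine Set.Finite.subset
        (Set.Finite.image (fun I : Ideal A => {a : Aᵐᵒᵖ | a.unop ∈ I}) hfin) ?_
      rintro M ⟨hM, x, hx⟩
      obtain ⟨I, hI, hIM⟩ := hM.ideal_op
      have hmem : ∀ z : A, z ∈ I ↔ op z ∈ M := by
        intro z
        have : z ∈ (I : Set A) ↔ z ∈ {a | op a ∈ M} := by rw [hIM]
        exact this
      obtain ⟨y, rfl⟩ := op_surjective x
      refine ⟨I, ⟨hI, y, ?_⟩, ?_⟩
      · rw [hpvo] at hx
        exact (hmem _).2 hx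
      · ext z
        obtain ⟨w, rfl⟩ := op_surjective z
        exact hmem w
  · have h1 : RS A n c := rs_of hr n c hc0 (fun x => by rw [hpv]; exact hu x)
    have h2 : RS Aᵐᵒᵖ n (fun j => op (c j)) := by
      refine rs_of hl n _ hop0 ?_
      intro x
      obtain ⟨y, rfl⟩ := op_surjective x
      rw [hpvo]
      exact (hu y).op
    have h3 : LS A n c := by
      intro a s
      obtain ⟨t, e1, e2⟩ := h2 (op a) (op s)
      refine ⟨fun i => (t i).unop, ?_, ?_⟩
      · intro i hi
        have := congrArg unop (e1 i hi)
        simpa using this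
      · have := congrArg unop e2
        rw [Finset.unop_sum] at this
        simpa using this
    have h4 : LS Aᵐᵒᵖ n (fun j => op (c j)) := by
      intro a s
      obtain ⟨t, e1, e2⟩ := h1 a.unop s.unop
      refine ⟨fun i => op (t i), ?_, ?_⟩
      · intro i hi
        have := congrArg op (e1 i hi)
        simpa using this
      · have := congrArg op e2
        rw [Finset.op_sum] at this
        simpa using this
    constructor
    · exact ore_general n hn1 c hcen h1 h3
    · intro a s hs
      exact oreL_of_op (ore_general n hn1 _ hcenop h2 h4) a s hs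

end Pool.Agent.Results.MP_64bfc7_al.OmittedRoots
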