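import Pool.Agent.Helper93_DR.Sol

set_option autoImplicit false

namespace Pool.Agent.Helper93_DR

open Finset MulOpposite

variable {B : Type*} [Ring B]

def Reg (s : B) : Prop := (∀ x : B, x * s = 0 → x = 0) ∧ (∀ x : B, s * x = 0 → x = 0)

def OreR (B : Type*) [Ring B] : Prop :=
  ∀ a s : B, Reg s → ∃ b t : B, Reg t ∧ a * t = s * b

def RS (B : Type*) [Ring B] (n : ℕ) (c : ℕ → B) : Prop :=
  ∀ a s : B, ∃ t : ℕ → B, (∀ i < n, a * t i = s * t (i + 1)) ∧
    ∑ i ∈ range (n + 1), c (n - i) * t i = 1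

def LS (B : Type*) [Ring B] (n : ℕ) (c : ℕ → B) : Prop :=
  ∀ a s : B, ∃ t : ℕ → B, (∀ i < n, t i * a = t (i + 1) * s) ∧
    ∑ i ∈ range (n + 1), t i * c (n - i) = 1

theorem MR.unit_not_mem {M : Set B} (hM : MR M) {u : B} (hu : IsUnit u) : u ∉ M := by
  intro h
  obtain ⟨v, hv⟩ := hu
  apply hM.one
  have := hM.mul _ h (↑(v⁻¹) : B)
  rw [← hv, Units.mul_inv] at this
  exact this

theorem rs_of (h : RD B) (n : ℕ) (c : ℕ → B) (hc0 : c 0 = 1)
    (hu : ∀ x, IsUnit (pv n c x)) : RS B n c := by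
  intro a s
  exact one_mem_HH h a s n c hc0 (fun M hM β _ => hM.unit_not_mem (hu β))

theorem left_inj {a s : B} (hs : ∀ z, z * s = 0 → z = 0) (n : ℕ) (c : ℕ → B) {t : ℕ → B}
    (h1 : ∀ i < n, t i * a = t (i + 1) * s) (h2 : ∑ i ∈ range (n + 1), t i * c (n - i) = 1)
    {y : B} (hy : y * t 0 = 0) : y = 0 := by
  have key : ∀ i, i ≤ n → y * t i = 0 := by
    intro i
    induction i with
    | zero => intro _; exact hy
    | succ i ih =>
      intro hi
      apply hs
      rw [mul_assoc, ← h1 i (by omega), ← mul_assoc, ih (by omega), zero_mul]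
  have : y * (∑ i ∈ range (n + 1), t i * c (n - i)) = 0 := by
    rw [Finset.mul_sum]
    apply Finset.sum_eq_zero
    intro i hi
    have := Finset.mem_range.1 hi
    rw [← mul_assoc, key i (by omega), zero_mul]
  rw [h2, mul_one] at this
  exact this

/-- The key identity: if `a t_i = s t_{i+1}`, `u_i a = u_{i+1} s` are normalised solutions with
central coefficients then `u_0 s = s t_0`. -/
theorem comm_sol {a s : B} (n : ℕ) (c : ℕ → B) (hc : ∀ i, ∀ x, c i * x = x * c i) {t u : ℕ → B}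
    (h1 : ∀ i < n, a * t i = s * t (i + 1)) (h2 : ∑ i ∈ range (n + 1), c (n - i) * t i = 1)
    (h3 : ∀ i < n, u i * a = u (i + 1) * s) (h4 : ∑ i ∈ range (n + 1), u i * c (n - i) = 1) :
    u 0 * s = s * t 0 := by
  have key : ∀ j i, j + i ≤ n → u j * s * t i = u 0 * s * t (j + i) := by
    intro j
    induction j with
    | zero => intro i _; simp
    | succ j ih =>
      intro i hi
      rw [← h3 j (by omega), mul_assoc, h1 i (by omega), ← mul_assoc, ih (i + 1) (by omega)]
      congr 2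
      omega
  calc u 0 * s = u 0 * s * ∑ i ∈ range (n + 1), c (n - i) * t i := by rw [h2, mul_one]
    _ = ∑ i ∈ range (n + 1), c (n - i) * (u 0 * s * t i) := by
        rw [Finset.mul_sum]
        apply Finset.sum_congr rfl
        intro i _
        rw [← mul_assoc, ← hc (n - i) (u 0 * s), mul_assoc]
    _ = ∑ i ∈ range (n + 1), u i * c (n - i) * (s * t 0) := by
        apply Finset.sum_congr rfl
        intro i hi
        have := Finset.mem_range.1 hi
        have e := key i 0 (by omega)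
        rw [add_zero] at e
        rw [← e, ← hc (n - i) (u i)]
        simp only [mul_assoc]
    _ = s * t 0 := by rw [← Finset.sum_mul, h4, one_mul]

theorem ore_general (n : ℕ) (hn : 1 ≤ n) (c : ℕ → B) (hc : ∀ i, ∀ x, c i * x = x * c i)
    (hR : RS B n c) (hL : LS B n c) : OreR B := by
  intro a s hs
  obtain ⟨t, h1, h2⟩ := hR a s
  obtain ⟨u, h3, h4⟩ := hL a s
  have h5 := comm_sol n c hc h1 h2 h3 h4
  refine ⟨t 1, t 0, ⟨?_, fun y hy => sol_inj hs.2 n c h1 h2 hy⟩, h1 0 (by omega)⟩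
  intro z hz
  obtain ⟨v, h6, h7⟩ := hL z s
  have h8 : ∀ i, 1 ≤ i → i ≤ n → v i = 0 := by
    intro i hi hin
    obtain ⟨j, rfl⟩ : ∃ j, i = j + 1 := ⟨i - 1, by omega⟩
    have e1 : v (j + 1) * s * t 0 = 0 := by
      rw [← h6 j (by omega), mul_assoc, hz, mul_zero]
    rw [mul_assoc, ← h5, ← mul_assoc] at e1
    have e2 : v (j + 1) * u 0 = 0 := hs.1 _ e1
    exact left_inj hs.1 n c h3 h4 e2
  have h9 : v 0 * z = 0 := by
    rw [h6 0 (by omega), h8 1 le_rfl hn, zero_mul]
  have h10 : v 0 * c n = 1 := by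
    rw [← h7, Finset.sum_range_succ']
    have : ∑ i ∈ range n, v (i + 1) * c (n - (i + 1)) = 0 := by
      apply Finset.sum_eq_zero
      intro i hi
      have := Finset.mem_range.1 hi
      rw [h8 (i + 1) (by omega) (by omega), zero_mul]
    rw [this]
    simp
  have : c n * (v 0 * z) = z := by
    rw [← mul_assoc, hc n, h10, one_mul]
  rw [← this, h9, mul_zero]

theorem ore_reduced (hred : ∀ x : B, x * x = 0 → x = 0)
    (hsol : ∀ a s : B, Reg s → ∃ e t b : B, (a - s * e) * t = s * b ∧ ∀ y, t * y = 0 → y = 0) :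
    OreR B := by
  intro a s hs
  obtain ⟨e, t, b, h1, h2⟩ := hsol a s hs
  refine ⟨b + e * t, t, ⟨?_, h2⟩, ?_⟩
  · intro z hz
    apply h2
    apply hred
    have : t * z * (t * z) = t * (z * t) * z := by noncomm_ring
    rw [this, hz, mul_zero, zero_mul]
  · rw [mul_add, ← h1]
    noncomm_ring

theorem ore_finite (h : RD B) (hred : ∀ x : B, x * x = 0 → x = 0) (n : ℕ) (hn : 1 ≤ n)
    (c : ℕ → B) (hc0 : c 0 = 1) (hcn : IsUnit (c n))
    (hfin : {M : Set B | MR M ∧ ∃ x, pv n c x ∈ M}.Finite) : OreR B := by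
  apply ore_reduced hred
  intro a s hs
  obtain ⟨e, t, h1, h2⟩ := sol_finite h a s hs.2 n c hc0 hcn hfin
  exact ⟨e, t 0, t 1, h1 0 (by omega), fun y hy => sol_inj hs.2 n c h1 h2 hy⟩

theorem ore_clique {α : Type*} (h : RD B) (hred : ∀ x : B, x * x = 0 → x = 0) (C : Set B)
    (hC : ∀ c ∈ C, ∀ c' ∈ C, c ≠ c' → IsUnit (c - c')) (F : Set B → α)
    (hF : ∀ M M', MR M → MR M' → F M = F M' → M = M')
    (hcard : ¬ ∃ f : C → α, Function.Injective f ∧ ∀ x, ∃ M, MR M ∧ f x = F M) : OreR B := by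
  apply ore_reduced hred
  intro a s hs
  obtain ⟨e, t, h1⟩ := sol_clique h a s hs.2 C hC F hF hcard
  refine ⟨e, t, 1, by rw [h1, mul_one], ?_⟩
  intro y hy
  apply hs.2
  rw [← h1, mul_assoc, hy, mul_zero]

/-! ### translation to submodules -/

theorem rd_of_right (A : Type*) [Ring A]
    (hR : ∀ a b c : Submodule Aᵐᵒᵖ A, a ⊓ (b ⊔ c) = a ⊓ b ⊔ a ⊓ c) : RD A := by
  intro u v
  have h1 : u + v ∈ (Submodule.span Aᵐᵒᵖ {u + v} : Submodule Aᵐᵒᵖ A) ⊓
      (Submodule.span Aᵐᵒᵖ {u} ⊔ Submodule.span Aᵐᵒᵖ {v}) := by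
    refine ⟨Submodule.mem_span_singleton_self _, ?_⟩
    exact Submodule.add_mem_sup (Submodule.mem_span_singleton_self _)
      (Submodule.mem_span_singleton_self _)
  rw [hR] at h1
  obtain ⟨p, hp, q, hq, hpq⟩ := Submodule.mem_sup.1 h1
  obtain ⟨p1, hp1⟩ := Submodule.mem_span_singleton.1 hp.1
  obtain ⟨p2, hp2⟩ := Submodule.mem_span_singleton.1 hp.2
  obtain ⟨q2, hq2⟩ := Submodule.mem_span_singleton.1 hq.2
  have e1 : (u + v) * p1.unop = p := hp1
  have e2 : u * p2.unop = p := hp2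
  have e3 : v * q2.unop = q := hq2
  refine ⟨1 - p1.unop, p1.unop, q2.unop - 1 + p1.unop, p2.unop - p1.unop, by abel, ?_, ?_⟩
  · have : v * (q2.unop - 1 + p1.unop) = v * q2.unop - v + v * p1.unop := by noncomm_ring
    rw [this, e3]
    have : q = u + v - (u + v) * p1.unop := by rw [e1, ← hpq]; abel
    rw [this]
    noncomm_ring
  · rw [mul_sub, e2, ← e1]
    noncomm_ring

theorem rd_of_left (A : Type*) [Ring A]
    (hL : ∀ a b c : Submodule A A, a ⊓ (b ⊔ c) = a ⊓ b ⊔ a ⊓ c) : RD Aᵐᵒᵖ := by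
  intro u' v'
  obtain ⟨u, rfl⟩ := op_surjective u'
  obtain ⟨v, rfl⟩ := op_surjective v'
  have h1 : u + v ∈ (Submodule.span A {u + v} : Submodule A A) ⊓
      (Submodule.span A {u} ⊔ Submodule.span A {v}) := by
    refine ⟨Submodule.mem_span_singleton_self _, ?_⟩
    exact Submodule.add_mem_sup (Submodule.mem_span_singleton_self _)
      (Submodule.mem_span_singleton_self _)
  rw [hL] at h1
  obtain ⟨p, hp, q, hq, hpq⟩ := Submodule.mem_sup.1 h1
  obtain ⟨p1, hp1⟩ := Submodule.mem_span_singleton.1 hp.1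
  obtain ⟨p2, hp2⟩ := Submodule.mem_span_singleton.1 hp.2
  obtain ⟨q2, hq2⟩ := Submodule.mem_span_singleton.1 hq.2
  have e1 : p1 * (u + v) = p := hp1
  have e2 : p2 * u = p := hp2
  have e3 : q2 * v = q := hq2
  refine ⟨op (1 - p1), op p1, op (q2 - 1 + p1), op (p2 - p1), ?_, ?_, ?_⟩
  · rw [← op_add]; simp
  · rw [← op_mul, ← op_mul]
    congr 1
    have : (q2 - 1 + p1) * v = q2 * v - v + p1 * v := by noncomm_ring
    rw [this, e3]
    have : q = u + v - p1 * (u + v) := by rw [e1, ← hpq]; abel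
    rw [this]
    noncomm_ring
  · rw [← op_mul, ← op_mul]
    congr 1
    rw [sub_mul, e2, ← e1]
    noncomm_ring

/-- a maximal right ideal of a right distributive ring is a maximal left ideal -/
theorem MR.ideal {A : Type*} [Ring A] (h : RD A) {M : Set A} (hM : MR M) :
    ∃ I : Ideal A, I.IsMaximal ∧ (I : Set A) = M := by
  refine ⟨{ carrier := M, add_mem' := fun {a b} ha hb => hM.add a ha b hb, zero_mem' := hM.zero,
            smul_mem' := fun c x hx => hM.left h c hx }, ?_, rfl⟩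
  rw [Ideal.isMaximal_iff]
  refine ⟨hM.one, ?_⟩
  intro J x hJ hx hxJ
  obtain ⟨w, hw⟩ := hM.linv h hx
  have h1 : w * x - 1 ∈ J := hJ hw
  have h2 : w * x ∈ J := J.mul_mem_left w hxJ
  have := J.sub_mem h2 h1
  simpa using this

/-- a maximal right ideal of the opposite ring is a maximal left ideal -/
theorem MR.ideal_op {A : Type*} [Ring A] {M : Set Aᵐᵒᵖ} (hM : MR M) :
    ∃ I : Ideal A, I.IsMaximal ∧ (I : Set A) = {a | op a ∈ M} := by
  refine ⟨{ carrier := {a | op a ∈ M}, add_mem' := fun {a b} ha hb => hM.add _ ha _ hb,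
            zero_mem' := hM.zero, smul_mem' := fun c x hx => hM.mul _ hx (op c) }, ?_, rfl⟩
  rw [Ideal.isMaximal_iff]
  refine ⟨hM.one, ?_⟩
  intro J x hJ hx hxJ
  obtain ⟨w, hw⟩ := hM.max (op x) hx
  have h1 : w.unop * x - 1 ∈ J := by
    apply hJ
    show op (w.unop * x - 1) ∈ M
    simpa using hw
  have h2 : w.unop * x ∈ J := J.mul_mem_left _ hxJ
  have := J.sub_mem h2 h1
  simpa using this

theorem reg_op {A : Type*} [Ring A] {s : A} : Reg (op s) ↔ Reg s := by
  constructor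
  · rintro ⟨h1, h2⟩
    refine ⟨fun x hx => ?_, fun x hx => ?_⟩
    · have := h2 (op x) (by rw [← op_mul, hx, op_zero])
      exact op_injective this
    · have := h1 (op x) (by rw [← op_mul, hx, op_zero])
      exact op_injective this
  · rintro ⟨h1, h2⟩
    refine ⟨fun x hx => ?_, fun x hx => ?_⟩
    · have := h2 x.unop (by
        have := congrArg unop hx
        simpa using this)
      exact unop_injective this
    · have := h1 x.unop (by
        have := congrArg unop hx
        simpa using this)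
      exact unop_injective this

theorem oreL_of_op {A : Type*} [Ring A] (h : OreR Aᵐᵒᵖ) (a s : A) (hs : Reg s) :
    ∃ b t : A, Reg t ∧ t * a = b * s := by
  obtain ⟨b, t, ht, h1⟩ := h (op a) (op s) (reg_op.2 hs)
  refine ⟨b.unop, t.unop, ?_, ?_⟩
  · have : op t.unop = t := op_unop t
    rw [← this] at ht
    exact reg_op.1 ht
  · have := congrArg unop h1
    simpa using this

end Pool.Agent.Helper93_DR
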