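import Pool.Agent.Helper93_DR.Core

set_option autoImplicit false

namespace Pool.Agent.Helper93_DR

open Finset

variable {B : Type*} [Ring B]

/-- value of the polynomial with left coefficients `c (n-i)` of `X^i` -/
def pv (n : ℕ) (c : ℕ → B) (x : B) : B := ∑ i ∈ range (n + 1), c (n - i) * x ^ i

/-- `β` is the residue of `s⁻¹ a` at `M` -/
def Res (a s : B) (M : Set B) (β : B) : Prop :=
  ∃ x c, x ∉ M ∧ a * x = s * c ∧ c - β * x ∈ M

theorem sum_mem {M : Set B} (hM : MR M) {ι : Type*} (s : Finset ι) (f : ι → B)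
    (h : ∀ i ∈ s, f i ∈ M) : ∑ i ∈ s, f i ∈ M := by
  classical
  induction s using Finset.induction_on with
  | empty => simpa using hM.zero
  | insert a s ha ih =>
    rw [Finset.sum_insert ha]
    exact hM.add _ (h a (Finset.mem_insert_self a s)) _
      (ih (fun i hi => h i (Finset.mem_insert_of_mem hi)))

theorem case1 {M : Set B} (hM : MR M) (h : RD B) {a s x c β : B} (hx : x ∉ M)
    (hax : a * x = s * c) (hc : c - β * x ∈ M) (k : ℕ) :
    ∃ t : ℕ → B, (∀ i < k, a * t i = s * t (i + 1)) ∧ (∀ i ≤ k, t i - β ^ i * t 0 ∈ M) ∧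
      t 0 ∉ M ∧ ∃ w, t k = x * w := by
  induction k with
  | zero =>
    refine ⟨fun _ => x, ?_, ?_, hx, 1, ?_⟩
    · intro i hi; omega
    · intro i hi
      have : i = 0 := by omega
      subst this
      simpa using hM.zero
    · simp
  | succ k ih =>
    obtain ⟨t, h1, h2, h3, w, h4⟩ := ih
    obtain ⟨x', w', hx', hw'⟩ := hM.ore h (c * w) hx
    refine ⟨fun i => if i ≤ k then t i * x' else c * w * x', ?_, ?_, ?_, w', ?_⟩
    · intro i hi
      by_cases hik : i < k
      · have e1 : i ≤ k := by omega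
        have e2 : i + 1 ≤ k := by omega
        simp only [e1, e2, if_true]
        rw [← mul_assoc, ← mul_assoc, h1 i hik]
      · have e0 : i = k := by omega
        subst e0
        have e2 : ¬ (i + 1 ≤ i) := by omega
        simp only [le_refl, if_true, e2, if_false]
        rw [h4, ← mul_assoc, ← mul_assoc, hax]
        noncomm_ring
    · intro i hi
      by_cases hik : i ≤ k
      · simp only [hik, if_true, Nat.zero_le]
        have := hM.mul _ (h2 i hik) x'
        rw [sub_mul, mul_assoc] at this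
        exact this
      · have e0 : i = k + 1 := by omega
        subst e0
        have e2 : ¬ (k + 1 ≤ k) := by omega
        simp only [e2, if_false, Nat.zero_le, if_true]
        have e : c * w * x' - β ^ (k + 1) * (t 0 * x')
            = (c - β * x) * (w * x') + β * ((t k - β ^ k * t 0) * x') := by
          rw [pow_succ', h4]
          noncomm_ring
        rw [e]
        exact hM.add _ (hM.mul _ hc _) _ (hM.left h _ (hM.mul _ (h2 k le_rfl) _))
    · simp only [Nat.zero_le, if_true]
      exact hM.prime h h3 hx'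
    · have e2 : ¬ (k + 1 ≤ k) := by omega
      simp only [e2, if_false]
      exact hw'

theorem case2 {M : Set B} (hM : MR M) (h : RD B) {a s y d : B} (hy : y ∉ M)
    (hsy : s * y = a * d) (hd : d ∈ M) (k : ℕ) :
    ∃ u : ℕ → B, (∀ i < k, a * u (i + 1) = s * u i) ∧ (∀ i, 1 ≤ i → i ≤ k → u i ∈ M) ∧
      u 0 ∉ M ∧ ∃ w, u k = y * w := by
  induction k with
  | zero =>
    refine ⟨fun _ => y, ?_, ?_, hy, 1, ?_⟩
    · intro i hi; omega
    · intro i hi hi'; omega
    · simp
  | succ k ih =>
    obtain ⟨t, h1, h2, h3, w, h4⟩ := ih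
    obtain ⟨x', w', hx', hw'⟩ := hM.ore h (d * w) hy
    refine ⟨fun i => if i ≤ k then t i * x' else d * w * x', ?_, ?_, ?_, w', ?_⟩
    · intro i hi
      by_cases hik : i < k
      · have e1 : i ≤ k := by omega
        have e2 : i + 1 ≤ k := by omega
        simp only [e1, e2, if_true]
        rw [← mul_assoc, ← mul_assoc, h1 i hik]
      · have e0 : i = k := by omega
        subst e0
        have e2 : ¬ (i + 1 ≤ i) := by omega
        simp only [le_refl, if_true, e2, if_false]
        rw [h4, ← mul_assoc, ← mul_assoc, ← hsy]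
        noncomm_ring
    · intro i hi1 hi
      by_cases hik : i ≤ k
      · simp only [hik, if_true]
        exact hM.mul _ (h2 i hi1 hik) x'
      · have e0 : i = k + 1 := by omega
        subst e0
        have e2 : ¬ (k + 1 ≤ k) := by omega
        simp only [e2, if_false]
        exact hM.mul _ (hM.mul _ hd _) _
    · simp only [Nat.zero_le, if_true]
      exact hM.prime h h3 hx'
    · have e2 : ¬ (k + 1 ≤ k) := by omega
      simp only [e2, if_false]
      exact hw'

/-- the right ideal of all `∑ c (n-i) t_i` over the solutions of `a t_i = s t_{i+1}` -/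
def HH (a s : B) (n : ℕ) (c : ℕ → B) : Set B :=
  {z | ∃ t : ℕ → B, (∀ i < n, a * t i = s * t (i + 1)) ∧ z = ∑ i ∈ range (n + 1), c (n - i) * t i}

theorem HH_not_sub {M : Set B} (hM : MR M) (h : RD B) (a s : B) (n : ℕ) (c : ℕ → B)
    (hc0 : c 0 = 1) (hres : ∀ β, Res a s M β → pv n c β ∉ M) : ∃ z ∈ HH a s n c, z ∉ M := by
  by_cases hex : ∃ x c', x ∉ M ∧ a * x = s * c'
  · obtain ⟨x, c', hx, hax⟩ := hex
    obtain ⟨w, hw⟩ := hM.linv h hx
    have hβ : c' - (c' * w) * x ∈ M := by
      have : c' - (c' * w) * x = c' * (w * x - 1) * (-1) := by noncomm_ring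
      rw [this]
      exact hM.mul _ (hM.left h _ hw) _
    obtain ⟨t, h1, h2, h3, -⟩ := case1 hM h hx hax hβ n
    refine ⟨∑ i ∈ range (n + 1), c (n - i) * t i, ⟨t, h1, rfl⟩, ?_⟩
    intro hmem
    have hp := hres (c' * w) ⟨x, c', hx, hax, hβ⟩
    apply hM.prime h hp h3
    have e : ∑ i ∈ range (n + 1), c (n - i) * t i - pv n c (c' * w) * t 0 ∈ M := by
      rw [pv, Finset.sum_mul, ← Finset.sum_sub_distrib]
      apply sum_mem hM
      intro i hi
      rw [mul_assoc, ← mul_sub]
      exact hM.left h _ (h2 i (by simpa [Nat.lt_succ_iff] using hi))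
    exact hM.of_sub' e hmem
  · push Not at hex
    obtain ⟨x, y, c', d, h1, h2, h3⟩ := h a s
    have hx : x ∈ M := by
      by_contra hx
      exact hex x c' hx h2
    have hd : d ∈ M := by
      by_contra hd
      exact hex d y hd h3.symm
    have hy : y ∉ M := by
      intro hy
      apply hM.one
      rw [← h1]
      exact hM.add _ hx _ hy
    obtain ⟨u, g1, g2, g3, -⟩ := case2 hM h hy h3 hd n
    refine ⟨∑ i ∈ range (n + 1), c (n - i) * u (n - i), ⟨fun i => u (n - i), ?_, rfl⟩, ?_⟩
    · intro i hi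
      have e := g1 (n - (i + 1)) (by omega)
      have e' : n - (i + 1) + 1 = n - i := by omega
      rw [e'] at e
      exact e
    · intro hmem
      apply g3
      have e : ∑ i ∈ range (n + 1), c (n - i) * u (n - i) = ∑ i ∈ range (n + 1), c i * u i :=
        Finset.sum_range_reflect (fun i => c i * u i) (n + 1)
      rw [e, Finset.sum_range_succ', hc0, one_mul] at hmem
      have e2 : ∑ i ∈ range n, c (i + 1) * u (i + 1) ∈ M := by
        apply sum_mem hM
        intro i hi
        have := Finset.mem_range.1 hi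
        exact hM.left h _ (g2 (i + 1) (by omega) (by omega))
      have := hM.sub hmem e2
      simpa using this

theorem one_mem_HH (h : RD B) (a s : B) (n : ℕ) (c : ℕ → B) (hc0 : c 0 = 1)
    (hres : ∀ M, MR M → ∀ β, Res a s M β → pv n c β ∉ M) :
    ∃ t : ℕ → B, (∀ i < n, a * t i = s * t (i + 1)) ∧ ∑ i ∈ range (n + 1), c (n - i) * t i = 1 := by
  by_contra hno
  have h1 : (1 : B) ∉ HH a s n c := by
    rintro ⟨t, ht, h1⟩
    exact hno ⟨t, ht, h1.symm⟩
  obtain ⟨M, hM, hsub⟩ := exists_MR (HH a s n c)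
    ⟨fun _ => 0, fun i _ => by simp, by simp⟩
    (by
      rintro x ⟨t, ht, rfl⟩ y ⟨u, hu, rfl⟩
      refine ⟨fun i => t i + u i, ?_, ?_⟩
      · intro i hi
        rw [mul_add, mul_add, ht i hi, hu i hi]
      · rw [← Finset.sum_add_distrib]
        exact Finset.sum_congr rfl (fun i _ => by rw [mul_add]))
    (by
      rintro x ⟨t, ht, rfl⟩ r
      refine ⟨fun i => t i * r, ?_, ?_⟩
      · intro i hi
        rw [← mul_assoc, ht i hi, mul_assoc]
      · rw [Finset.sum_mul]
        exact Finset.sum_congr rfl (fun i _ => by rw [mul_assoc])) h1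
  obtain ⟨z, hz, hzM⟩ := HH_not_sub hM h a s n c hc0 (hres M hM)
  exact hzM (hsub hz)

/-- uniqueness of the residue -/
theorem Res.unique {M : Set B} (hM : MR M) (h : RD B) {a s : B} (hs : ∀ z, s * z = 0 → z = 0)
    {β₁ β₂ : B} (h₁ : Res a s M β₁) (h₂ : Res a s M β₂) : β₁ - β₂ ∈ M := by
  obtain ⟨x1, c1, hx1, ha1, hc1⟩ := h₁
  obtain ⟨x2, c2, hx2, ha2, hc2⟩ := h₂
  obtain ⟨x', v, hx', hv⟩ := hM.ore h x2 hx1
  have hvM : v ∉ M := by
    intro hv'
    apply hM.prime h hx2 hx'
    rw [hv]
    exact hM.left h _ hv'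
  have e1 : c1 * v = c2 * x' := by
    have : s * (c1 * v - c2 * x') = 0 := by
      have e2 : s * (c1 * v - c2 * x') = (s * c1) * v - (s * c2) * x' := by noncomm_ring
      rw [e2, ← ha1, ← ha2, mul_assoc, mul_assoc, hv, sub_self]
    exact sub_eq_zero.1 (hs _ this)
  by_contra hβ
  apply hM.prime h hβ (hM.prime h hx1 hvM)
  have e3 : (β₁ - β₂) * (x1 * v) = (c2 - β₂ * x2) * x' - (c1 - β₁ * x1) * v := by
    have : (β₁ - β₂) * (x1 * v) = β₁ * x1 * v - β₂ * (x1 * v) := by noncomm_ring
    rw [this, ← hv]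
    have e4 : (c2 - β₂ * x2) * x' - (c1 - β₁ * x1) * v
      = (c2 * x' - c1 * v) + (β₁ * x1 * v - β₂ * (x2 * x')) := by noncomm_ring
    rw [e4, e1, sub_self, zero_add]
  rw [e3]
  exact hM.sub (hM.mul _ hc2 _) (hM.mul _ hc1 _)

theorem Res.shift {M : Set B} {a s e β : B} (h : Res (a - s * e) s M β) :
    Res a s M (β + e) := by
  obtain ⟨x, c, hx, ha, hc⟩ := h
  refine ⟨x, c + e * x, hx, ?_, ?_⟩
  · have : a * x = (a - s * e) * x + s * (e * x) := by noncomm_ring
    rw [this, ha, mul_add]
  · have : c + e * x - (β + e) * x = c - β * x := by noncomm_ring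
    rw [this]
    exact hc

/-- a separating element -/
theorem exists_sep (h : RD B) {M : Set B} (hM : MR M) (L : List (Set B))
    (hL : ∀ M' ∈ L, MR M' ∧ M' ≠ M) : ∃ u, u ∉ M ∧ ∀ M' ∈ L, u ∈ M' := by
  induction L with
  | nil => exact ⟨1, hM.one, by simp⟩
  | cons N L ih =>
    obtain ⟨u, hu, hu'⟩ := ih (fun M' hM' => hL M' (List.mem_cons_of_mem _ hM'))
    obtain ⟨hN, hNM⟩ := hL N List.mem_cons_self
    have : ∃ m ∈ N, m ∉ M := by
      by_contra hno
      push Not at hno
      apply hNM
      apply Set.Subset.antisymm hno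
      intro x hx
      by_contra hxN
      obtain ⟨w, hw⟩ := hN.max x hxN
      apply hM.one
      exact hM.of_sub' (hno _ hw) (hM.mul _ hx _)
    obtain ⟨m, hm, hmM⟩ := this
    refine ⟨u * m, hM.prime h hu hmM, ?_⟩
    intro M' hM'
    rcases List.mem_cons.1 hM' with rfl | hM'
    · exact hN.left h _ hm
    · exact (hL M' (List.mem_cons_of_mem _ hM')).1.mul _ (hu' M' hM') _

/-- Chinese remainder -/
theorem exists_crt (h : RD B) (L : List (Set B)) (hL : ∀ M ∈ L, MR M) (b : Set B → B) :
    ∃ e, ∀ M ∈ L, e - b M ∈ M := by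
  classical
  induction L with
  | nil => exact ⟨0, by simp⟩
  | cons N L ih =>
    obtain ⟨e, he⟩ := ih (fun M hM => hL M (List.mem_cons_of_mem _ hM))
    have hN : MR N := hL N List.mem_cons_self
    by_cases hNL : N ∈ L
    · refine ⟨e, ?_⟩
      intro M hM
      rcases List.mem_cons.1 hM with rfl | hM
      · exact he _ hNL
      · exact he _ hM
    · obtain ⟨u, hu, hu'⟩ := exists_sep h hN L (by
        intro M' hM'
        refine ⟨hL M' (List.mem_cons_of_mem _ hM'), ?_⟩
        rintro rfl
        exact hNL hM')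
      obtain ⟨w, hw⟩ := hN.max u hu
      refine ⟨e + u * w * (b N - e), ?_⟩
      intro M hM
      rcases List.mem_cons.1 hM with rfl | hM
      · have : e + u * w * (b M - e) - b M = (u * w - 1) * (b M - e) := by noncomm_ring
        rw [this]
        exact hN.mul _ hw _
      · have hM' := hL M (List.mem_cons_of_mem _ hM)
        have : e + u * w * (b N - e) - b M = (e - b M) + u * (w * (b N - e)) := by noncomm_ring
        rw [this]
        exact hM'.add _ (he M hM) _ (hM'.mul _ (hu' M hM) _)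

/-- Values of `p` outside of all but finitely many maximal ideals. -/
theorem sol_finite (h : RD B) (a s : B) (hs : ∀ z, s * z = 0 → z = 0) (n : ℕ) (c : ℕ → B)
    (hc0 : c 0 = 1) (hcn : IsUnit (c n))
    (hfin : {M : Set B | MR M ∧ ∃ x, pv n c x ∈ M}.Finite) :
    ∃ (e : B) (t : ℕ → B), (∀ i < n, (a - s * e) * t i = s * t (i + 1)) ∧
      ∑ i ∈ range (n + 1), c (n - i) * t i = 1 := by
  classical
  let b : Set B → B := fun M => if hb : ∃ β, Res a s M β then hb.choose else 0
  obtain ⟨e, he⟩ := exists_crt h hfin.toFinset.toList (by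
    intro M hM
    rw [Finset.mem_toList, Set.Finite.mem_toFinset] at hM
    exact hM.1) b
  refine ⟨e, one_mem_HH h (a - s * e) s n c hc0 ?_⟩
  intro M hM β hβ hpv
  have hME : M ∈ hfin.toFinset.toList := by
    rw [Finset.mem_toList, Set.Finite.mem_toFinset]
    exact ⟨hM, β, hpv⟩
  have h1 := he M hME
  have hβ' := hβ.shift
  have hb : Res a s M (b M) := by
    have hex : ∃ β, Res a s M β := ⟨_, hβ'⟩
    show Res a s M (if hb : ∃ β, Res a s M β then hb.choose else 0)
    rw [dif_pos hex]
    exact hex.choose_spec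
  have h2 := Res.unique hM h hs hβ' hb
  have hβM : β ∈ M := by
    have : β = (β + e - b M) - (e - b M) := by abel
    rw [this]
    exact hM.sub h2 h1
  have h3 : pv n c β - c n ∈ M := by
    rw [pv, Finset.sum_range_succ']
    simp only [pow_zero, mul_one, Nat.sub_zero, add_sub_cancel_right]
    apply sum_mem hM
    intro i _
    rw [pow_succ]
    exact hM.left h _ (hM.left h _ hβM)
  have h4 : c n ∈ M := hM.of_sub' h3 hpv
  obtain ⟨v, hv⟩ := hcn
  apply hM.one
  have := hM.mul _ h4 (↑(v⁻¹) : B)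
  rw [← hv, Units.mul_inv] at this
  exact this

/-- Many unit differences. -/
theorem sol_clique {α : Type*} (h : RD B) (a s : B) (hs : ∀ z, s * z = 0 → z = 0) (C : Set B)
    (hC : ∀ c ∈ C, ∀ c' ∈ C, c ≠ c' → IsUnit (c - c')) (F : Set B → α)
    (hF : ∀ M M', MR M → MR M' → F M = F M' → M = M')
    (hcard : ¬ ∃ f : C → α, Function.Injective f ∧ ∀ x, ∃ M, MR M ∧ f x = F M) :
    ∃ (e : B) (t : B), (a - s * e) * t = s := by
  classical
  have hgood : ∃ e ∈ C, ∀ M, MR M → ¬ Res a s M e := by
    by_contra hno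
    push Not at hno
    choose g hg using hno
    apply hcard
    refine ⟨fun x => F (g x.1 x.2), ?_, fun x => ⟨g x.1 x.2, (hg x.1 x.2).1, rfl⟩⟩
    intro x y hxy
    by_contra hne
    have hM := (hg x.1 x.2).1
    have e1 : g x.1 x.2 = g y.1 y.2 := hF _ _ hM (hg y.1 y.2).1 hxy
    have h1 := (hg x.1 x.2).2
    have h2 := (hg y.1 y.2).2
    rw [← e1] at h2
    have h3 := Res.unique hM h hs h1 h2
    have hne' : (x : B) ≠ y := fun hh => hne (Subtype.ext hh)
    obtain ⟨v, hv⟩ := hC x x.2 y y.2 hne'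
    apply hM.one
    have := hM.mul _ h3 (↑(v⁻¹) : B)
    rw [← hv, Units.mul_inv] at this
    exact this
  obtain ⟨e, he, hgood⟩ := hgood
  obtain ⟨t, h1, h2⟩ := one_mem_HH h a s 1 (fun i => if i = 0 then 1 else -e) (by simp) (by
    intro M hM β hβ hpv
    have : pv 1 (fun i => if i = 0 then 1 else -e) β = β - e := by
      simp [pv, Finset.sum_range_succ]
      abel
    rw [this] at hpv
    apply hgood M hM
    obtain ⟨x, c, hx, ha, hc⟩ := hβ
    refine ⟨x, c, hx, ha, ?_⟩
    have e1 : c - e * x = (c - β * x) + (β - e) * x := by noncomm_ring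
    rw [e1]
    exact hM.add _ hc _ (hM.mul _ hpv _))
  have h3 := h1 0 (by norm_num)
  simp [Finset.sum_range_succ] at h2 h3
  refine ⟨e, t 0, ?_⟩
  have e1 : t 1 = 1 + e * t 0 := by
    rw [← h2]; abel
  rw [e1] at h3
  rw [sub_mul, h3]
  noncomm_ring

/-- left cancellation properties of the solution -/
theorem sol_inj {a s : B} (hs : ∀ z, s * z = 0 → z = 0) (n : ℕ) (c : ℕ → B) {t : ℕ → B}
    (h1 : ∀ i < n, a * t i = s * t (i + 1)) (h2 : ∑ i ∈ range (n + 1), c (n - i) * t i = 1)
    {y : B} (hy : t 0 * y = 0) : y = 0 := by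
  have key : ∀ i, i ≤ n → t i * y = 0 := by
    intro i
    induction i with
    | zero => intro _; exact hy
    | succ i ih =>
      intro hi
      apply hs
      rw [← mul_assoc, ← h1 i (by omega), mul_assoc, ih (by omega), mul_zero]
  have : (∑ i ∈ range (n + 1), c (n - i) * t i) * y = 0 := by
    rw [Finset.sum_mul]
    apply Finset.sum_eq_zero
    intro i hi
    have := Finset.mem_range.1 hi
    rw [mul_assoc, key i (by omega), mul_zero]
  rw [h2, one_mul] at this
  exact this

end Pool.Agent.Helper93_DR
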