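import Pool.Agent.Helper93_DR.Ore

/-!
# MP_64bfc7_al: reduced two-sided distributive rings with many pairwise unit differences

If a reduced left and right distributive ring `A` contains a set `C` with pairwise invertible
differences which has more elements than `A` has maximal ideals then `A` has a classical ring of
quotients.  For regular `s` and any `a` the residue of `s^(-1) a` at a maximal ideal `M` (if it is
finite) is congruent to at most one element of `C`, so some `c` in `C` is not a residue at all, and
then `(a - s c) t = s` has a solution `t`.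
-/

set_option autoImplicit false

namespace Pool.Agent.Helper93_DR.UnitDifferences

open Finset MulOpposite
open Pool.Agent.Helper93_DR

/-- Let `A` be a reduced left and right distributive ring which contains a set `C` such that `c - c'`
is a unit for all distinct `c`, `c'` in `C` and such that `C` has more elements than `A` has maximal
ideals.  Then the regular elements of `A` satisfy the right and the left Ore condition. -/
theorem result {A : Type*} [Ring A] [IsReduced A]
    (hL : ∀ a b c : Submodule A A, a ⊓ (b ⊔ c) = a ⊓ b ⊔ a ⊓ c)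
    (hR : ∀ a b c : Submodule Aᵐᵒᵖ A, a ⊓ (b ⊔ c) = a ⊓ b ⊔ a ⊓ c)
    (C : Set A) (hC : ∀ c ∈ C, ∀ c' ∈ C, c ≠ c' → IsUnit (c - c'))
    (hcard : Cardinal.mk {M : Ideal A // M.IsMaximal} < Cardinal.mk C) :
    (∀ a s : A, ((∀ x : A, x * s = 0 → x = 0) ∧ (∀ x : A, s * x = 0 → x = 0)) →
      ∃ b t : A, ((∀ x : A, x * t = 0 → x = 0) ∧ (∀ x : A, t * x = 0 → x = 0)) ∧
        a * t = s * b) ∧
    (∀ a s : A, ((∀ x : A, x * s = 0 → x = 0) ∧ (∀ x : A, s * x = 0 → x = 0)) →
      ∃ b t : A, ((∀ x : A, x * t = 0 → x = 0) ∧ (∀ x : A, t * x = 0 → x = 0)) ∧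
        t * a = b * s) := by
  have hr := rd_of_right A hR
  have hl := rd_of_left A hL
  have hred' : ∀ x : A, x * x = 0 → x = 0 := by
    intro x hx
    apply IsReduced.eq_zero
    exact ⟨2, by rw [pow_two, hx]⟩
  have hred'' : ∀ x : Aᵐᵒᵖ, x * x = 0 → x = 0 := by
    intro x hx
    have := hred' x.unop (by
      have := congrArg unop hx
      simpa using this)
    exact unop_injective this
  constructor
  · refine ore_clique (α := Set A) hr hred' C hC (fun M => M) (fun M M' _ _ h => h) ?_
    rintro ⟨f, hf, hfM⟩
    have hI : ∀ x : C, ∃ I : Ideal A, I.IsMaximal ∧ (I : Set A) = f x := by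
      intro x
      obtain ⟨M, hM, hx⟩ := hfM x
      have hx' : f x = M := hx
      rw [hx']
      exact hM.ideal hr
    choose g hg using hI
    refine absurd hcard (not_lt.2 ?_)
    refine Cardinal.mk_le_of_injective (f := fun x : C => (⟨g x, (hg x).1⟩ :
      {M : Ideal A // M.IsMaximal})) ?_
    intro x y hxy
    apply hf
    rw [← (hg x).2, ← (hg y).2]
    have : g x = g y := congrArg Subtype.val hxy
    rw [this]
  · intro a s hs
    refine oreL_of_op ?_ a s hs
    refine ore_clique (α := Set Aᵐᵒᵖ) hl hred'' (unop ⁻¹' C) ?_ (fun M => M)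
      (fun M M' _ _ h => h) ?_
    · intro x hx y hy hxy
      have h1 := hC x.unop hx y.unop hy (fun h => hxy (unop_injective h))
      have := h1.op
      rwa [op_sub, op_unop, op_unop] at this
    · rintro ⟨f, hf, hfM⟩
      have hI : ∀ x : (unop ⁻¹' C : Set Aᵐᵒᵖ), ∃ I : Ideal A, I.IsMaximal ∧
          (I : Set A) = {a | op a ∈ f x} := by
        intro x
        obtain ⟨M, hM, hx⟩ := hfM x
        have hx' : f x = M := hx
        rw [hx']
        exact hM.ideal_op
      choose g hg using hI
      refine absurd hcard (not_lt.2 ?_)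
      refine Cardinal.mk_le_of_injective (f := fun x : C => (⟨g ⟨op x.1, x.2⟩, (hg _).1⟩ :
        {M : Ideal A // M.IsMaximal})) ?_
      intro x y hxy
      have h1 : g ⟨op x.1, x.2⟩ = g ⟨op y.1, y.2⟩ := congrArg Subtype.val hxy
      have h2 : f ⟨op x.1, x.2⟩ = f ⟨op y.1, y.2⟩ := by
        have e1 := (hg ⟨op x.1, x.2⟩).2
        have e2 := (hg ⟨op y.1, y.2⟩).2
        rw [h1] at e1
        have e3 : {a | op a ∈ f ⟨op x.1, x.2⟩} = {a | op a ∈ f ⟨op y.1, y.2⟩} := by
          rw [← e1, ← e2]
        ext z
        obtain ⟨w, rfl⟩ := op_surjective z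
        have : w ∈ {a | op a ∈ f ⟨op x.1, x.2⟩} ↔ w ∈ {a | op a ∈ f ⟨op y.1, y.2⟩} := by rw [e3]
        exact this
      have h3 := hf h2
      apply Subtype.ext
      have h4 : op x.1 = op y.1 := congrArg Subtype.val h3
      exact op_injective h4

end Pool.Agent.Helper93_DR.UnitDifferences
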